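import Pool.Agent.Helper34.FF.Goals1
import Pool.Agent.Helper22.FF.StmtAlg
import Pool.Agent.Helper90.FF.StmtPar
import Pool.Agent.Helper90.FF.StmtBond
import Pool.Agent.Helper89.FF.StmtNoCut
import Pool.Agent.Helper89.FF.StmtOneSaved
import Pool.Agent.Helper75.FF.StmtTri
import Pool.Agent.Helper77.FF.StmtSub
import Pool.Agent.Helper27.FF.StmtMinCut
import Pool.Agent.Helper23.FF.StmtEnum
import Pool.Agent.Helper52.FF.StmtEnumFacts
import Pool.Agent.Helper52.FF.StmtTwoPaths
import Pool.Agent.Helper73.FF.StmtOneCorner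
import Pool.Agent.Helper32.FF.StmtAvoid
import Pool.Agent.Helper93.FF.StmtDecomp
import Pool.Agent.Helper7.FF.StmtIso
import Pool.Agent.Helper92.FF.StmtFire
import Pool.Agent.Helper92.FF.StmtRadius
import Pool.Agent.Helper65.FF.StmtChord
import Pool.Agent.Helper67.FF.StmtThree

/-!
# The proved statements of the first batch, collected
-/

namespace Pool.Agent.Helper34.FF

theorem pAlg : StmtAlg := Pool.Agent.Helper22.FF.pf_StmtAlg
theorem pPar : StmtPar := Pool.Agent.Helper90.FF.pf_StmtPar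
theorem pNoCut : StmtNoCut := Pool.Agent.Helper89.FF.pf_StmtNoCut
theorem pTri : StmtTri := Pool.Agent.Helper75.FF.pf_StmtTri
theorem pBond : StmtBond := Pool.Agent.Helper90.FF.pf_StmtBond pAlg pNoCut
theorem pSub : StmtSub := Pool.Agent.Helper77.FF.pf_StmtSub
theorem pMinCut : StmtMinCut := Pool.Agent.Helper27.FF.pf_StmtMinCut pAlg pNoCut
theorem pEnum : StmtEnum := Pool.Agent.Helper23.FF.pf_StmtEnum pAlg pBond
theorem pEnumFacts : StmtEnumFacts := Helper52FF.pf_StmtEnumFacts pAlg pBond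
theorem pTwoPaths : StmtTwoPaths := Helper52FF.pf_StmtTwoPaths pPar
theorem pOneCorner : StmtOneCorner := Pool.Agent.Helper73.FF.pf_StmtOneCorner
theorem pTwoCorner : StmtTwoCorner := Pool.Agent.Helper73.FF.pf_StmtTwoCorner
theorem pAvoid : StmtAvoid := Pool.Agent.Helper32.FF.pf_StmtAvoid pAlg pTri
theorem pDecomp : StmtDecomp := Pool.Agent.Helper93.FF.pf_StmtDecomp
theorem pIso : StmtIso := Pool.Agent.Helper7.FF.pf_StmtIso pAlg pEnumFacts
theorem pChordZ : Pool.Agent.Helper65.FF.StmtChordZ :=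
  Pool.Agent.Helper65.FF.pf_StmtChordZ pAlg pNoCut pBond pEnumFacts pTwoPaths
theorem pThree : StmtThree := Helper67.FF.pf_StmtThree pAlg pPar pNoCut pEnum pEnumFacts
theorem pFire : StmtFire := Pool.Agent.Helper92.FF.pf_StmtFire
theorem pOneSaved : StmtOneSaved := Pool.Agent.Helper89.FF.pf_StmtOneSaved
theorem pRadius : StmtRadius := Pool.Agent.Helper92.FF.pf_StmtRadius

end Pool.Agent.Helper34.FF
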