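import Mathlib

/-!
# Two firefighters on planar graphs: common definitions (MP_7cb822_co)
-/

namespace Pool.Agent.Helper34.FF

open Finset
open scoped symmDiff Classical

/-! ## Walks as functions -/

/-- `a` is a walk of length `k` from `x` to `y` in `G`. -/
def IsW {V : Type} (G : SimpleGraph V) (k : ℕ) (a : ℕ → V) (x y : V) : Prop :=
  a 0 = x ∧ a k = y ∧ ∀ i < k, G.Adj (a i) (a (i + 1))

/-- `y` can be reached from `x` in at most `t` steps. -/
def Within {V : Type} (G : SimpleGraph V) (t : ℕ) (x y : V) : Prop :=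
  ∃ k ≤ t, ∃ a, IsW G k a x y

/-- The edges of the walk `a` of length `k`. -/
noncomputable def wE {V : Type} (k : ℕ) (a : ℕ → V) : Finset (Sym2 V) :=
  (range k).image fun i => s(a i, a (i + 1))

/-- The vertices of the walk `a` of length `k`. -/
noncomputable def wV {V : Type} (k : ℕ) (a : ℕ → V) : Finset V :=
  (range (k + 1)).image a

/-- The walk `a` of length `k` does not repeat a vertex. -/
def Inj {V : Type} (k : ℕ) (a : ℕ → V) : Prop := ∀ i ≤ k, ∀ j ≤ k, a i = a j → i = j

/-! ## Barriers and bad vertices -/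

/-- `c` is reached from `w` in at most `t` steps by a walk that avoids `C` before its end. -/
def Hits {V : Type} (G : SimpleGraph V) (C : Finset V) (w : V) (t : ℕ) (c : V) : Prop :=
  ∃ k ≤ t, ∃ a, IsW G k a w c ∧ ∀ i < k, a i ∉ C

/-- The barrier `C` can be protected in time against a fire that starts at `w`. -/
def Good {V : Type} (G : SimpleGraph V) (w : V) (C : Finset V) : Prop :=
  w ∉ C ∧ ∀ t, 1 ≤ t → (C.filter fun c => Hits G C w t c).card ≤ 2 * t

/-- No barrier that can be protected in time saves `e` vertices. -/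
def Bad {V : Type} (G : SimpleGraph V) (e : ℕ) (w : V) : Prop :=
  ∀ C, Good G w C → ∀ Q : Finset V, (∀ v ∈ Q, ∀ k a, IsW G k a w v → ∃ i ≤ k, a i ∈ C) →
    Q.card < e

/-! ## Triangulations -/

/-- A finite simple graph with triangular faces such that every edge lies on exactly two faces. -/
structure Tri (V F : Type) [Fintype V] [Fintype F] where
  /-- the graph -/
  G : SimpleGraph V
  /-- the vertices of a face -/
  tri : F → Finset V
  tri_card : ∀ f, (tri f).card = 3
  tri_adj : ∀ f, ∀ a ∈ tri f, ∀ b ∈ tri f, a ≠ b → G.Adj a b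
  two : ∀ a b, G.Adj a b → (univ.filter fun f => a ∈ tri f ∧ b ∈ tri f).card = 2

/-- Every vertex has even degree in the edge set `Z`. -/
def EvenSet {V : Type} (Z : Finset (Sym2 V)) : Prop :=
  ∀ v, Even (Z.filter fun e => v ∈ e).card

section
variable {V F : Type} [Fintype V] [Fintype F] (T : Tri V F)

/-- The edge `e` lies on the face `f`. -/
def Tri.on (e : Sym2 V) (f : F) : Prop := ∀ v ∈ e, v ∈ T.tri f

/-- The boundary of a set of faces: the edges with exactly one face in it. -/
noncomputable def Tri.bdry (S : Finset F) : Finset (Sym2 V) :=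
  univ.filter fun e => e ∈ T.G.edgeSet ∧ (S.filter fun f => T.on e f).card = 1

/-- The inner edges of a set of faces: the edges with both faces in it. -/
noncomputable def Tri.inn (S : Finset F) : Finset (Sym2 V) :=
  univ.filter fun e => e ∈ T.G.edgeSet ∧ (S.filter fun f => T.on e f).card = 2

/-- The edges between two (disjoint) sets of faces. -/
noncomputable def Tri.btw (A B : Finset F) : Finset (Sym2 V) :=
  univ.filter fun e => e ∈ T.G.edgeSet ∧ (A.filter fun f => T.on e f).card = 1 ∧
    (B.filter fun f => T.on e f).card = 1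

/-- The length of the boundary. -/
noncomputable def Tri.len (S : Finset F) : ℕ := (T.bdry S).card

/-- The vertices all of whose faces are in `S`. -/
noncomputable def Tri.Vin (S : Finset F) : Finset V :=
  univ.filter fun v => ∀ f, v ∈ T.tri f → f ∈ S

/-- The vertices on the boundary of `S`. -/
noncomputable def Tri.Vbd (S : Finset F) : Finset V :=
  univ.filter fun v => ∃ e ∈ T.bdry S, v ∈ e

/-- `S` is nonempty and dual-connected. -/
def Tri.DC (S : Finset F) : Prop :=
  S.Nonempty ∧ ∀ X ⊆ S, T.bdry X ⊆ T.bdry S → X = ∅ ∨ X = S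

/-- `S` and its complement are dual-connected. -/
def Tri.Bond (S : Finset F) : Prop := T.DC S ∧ T.DC Sᶜ

/-- The axioms of a triangulated sphere. -/
structure Tri.Sphere (T : Tri V F) : Prop where
  conn : T.G.Connected
  face : ∀ v, ∃ f, v ∈ T.tri f
  span : ∀ Z : Finset (Sym2 V), (∀ e ∈ Z, e ∈ T.G.edgeSet) → EvenSet Z → ∃ S, T.bdry S = Z
  dual : ∀ S, T.bdry S = ∅ → S = ∅ ∨ S = univ
  link : ∀ v S, (∀ e ∈ T.bdry S, v ∉ e) →
    (∀ f, v ∈ T.tri f → f ∈ S) ∨ (∀ f, v ∈ T.tri f → f ∉ S)
  edges : (univ.filter fun e : Sym2 V => e ∈ T.G.edgeSet).card ≤ 3 * Fintype.card V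

/-! ## Boundary cycles -/

/-- `c` enumerates the boundary of `S` cyclically with period `l`. -/
structure Tri.Enum (S : Finset F) (l : ℕ) (c : ℤ → V) : Prop where
  three : 3 ≤ l
  per : ∀ i, c (i + l) = c i
  inj : ∀ i j, c i = c j → (l : ℤ) ∣ i - j
  adj : ∀ i, T.G.Adj (c i) (c (i + 1))
  bd : ∀ e, e ∈ T.bdry S ↔ ∃ i, e = s(c i, c (i + 1))

/-- The edges of the arc from position `i` to position `j`. -/
noncomputable def arcE {V : Type} (c : ℤ → V) (i j : ℤ) : Finset (Sym2 V) :=
  (Ico i j).image fun t => s(c t, c (t + 1))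

/-- The vertices of the arc from position `i` to position `j`. -/
noncomputable def arcV {V : Type} (c : ℤ → V) (i j : ℤ) : Finset V :=
  (Icc i j).image c

/-- The boundary of `S` is an isometric cycle of length `l` (enumerated by `c`). -/
def Tri.Iso (S : Finset F) (l : ℕ) (c : ℤ → V) : Prop :=
  T.Enum S l c ∧ ∀ i j, i ≤ j → j ≤ i + l → (T.G.dist (c i) (c j) : ℤ) = min (j - i) (l - (j - i))

/-- No shortcuts inside `S`: a walk in the closure of `S` between two boundary vertices can be
replaced by a walk on the boundary that is not longer. -/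
def Tri.IN (S : Finset F) : Prop :=
  ∀ k a x y, x ∈ T.Vbd S → y ∈ T.Vbd S → IsW T.G k a x y →
    (∀ i < k, s(a i, a (i + 1)) ∈ T.inn S ∪ T.bdry S) →
    ∃ k' ≤ k, ∃ a', IsW T.G k' a' x y ∧ ∀ i < k', s(a' i, a' (i + 1)) ∈ T.bdry S

/-- The graph without the inner edges of the sets of faces in `Ds`. -/
def Tri.avoid (Ds : Finset (Finset F)) : SimpleGraph V where
  Adj v w := T.G.Adj v w ∧ ∀ X ∈ Ds, s(v, w) ∉ T.inn X
  symm := ⟨fun v w h => ⟨h.1.symm, fun X hX => by
    rw [Sym2.eq_swap]
    exact h.2 X hX⟩⟩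
  loopless := ⟨fun v h => T.G.loopless.irrefl v h.1⟩

/-- Pairwise disjoint bonds without inner shortcuts. -/
def Tri.Obst (Ds : Finset (Finset F)) : Prop :=
  (∀ X ∈ Ds, T.Bond X ∧ T.IN X) ∧ ∀ X ∈ Ds, ∀ Y ∈ Ds, X ≠ Y → Disjoint X Y

end

end Pool.Agent.Helper34.FF
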