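import Pool.Agent.Helper34.FF.Goals1

/-!
# Second batch: legs, sectors, the wedge lemma, mass
-/

namespace Pool.Agent.Helper34.FF

open Finset
open scoped symmDiff Classical

section
variable {V F : Type} [Fintype V] [Fintype F] (T : Tri V F)

/-- The mass of a set of faces: the number of vertices of `L` in its interior. -/
noncomputable def Tri.m (L : Finset V) (S : Finset F) : ℕ := (L ∩ T.Vin S).card

/-- Every vertex of `L` is bad and has degree at most `11`. -/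
def Tri.BadSet (L : Finset V) (e : ℕ) : Prop :=
  ∀ u ∈ L, Bad T.G e u ∧ (univ.filter fun v => T.G.Adj u v).card ≤ 11

/-- Geodesic legs in `H` from `u` to all vertices of the boundary cycle of `E`: `a i` is the leg
to `c i`, its length is `d i`; the legs form a tree. -/
structure Tri.Legs (E : Finset F) (l : ℕ) (c : ℤ → V) (H : SimpleGraph V) (u : V)
    (d : ℤ → ℕ) (a : ℤ → ℕ → V) : Prop where
  enum : T.Enum E l c
  sub : H ≤ T.G
  noin : ∀ v w, H.Adj v w → s(v, w) ∉ T.inn E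
  out : u ∈ T.Vin Eᶜ
  d_per : ∀ i, d (i + l) = d i
  a_per : ∀ i, a (i + l) = a i
  start : ∀ i, a i 0 = u
  fin : ∀ i, a i (d i) = c i
  adj : ∀ i, ∀ j < d i, H.Adj (a i j) (a i (j + 1))
  tree : ∀ i i' j, j ≤ d i → j ≤ d i' → a i j = a i' j → ∀ j' ≤ j, a i j' = a i' j'
  level : ∀ i j, j ≤ d i → ∀ t, Within H t u (a i j) → j ≤ t

/-- `cell i j` is the region between the legs `i` and `j` and the arc from `i` to `j`. -/
structure Tri.Cells (E : Finset F) (l : ℕ) (c : ℤ → V) (d : ℤ → ℕ) (a : ℤ → ℕ → V)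
    (cell : ℤ → ℤ → Finset F) : Prop where
  disj : ∀ i j, i ≤ j → j ≤ i + l → Disjoint (cell i j) E
  bd : ∀ i j, i ≤ j → j ≤ i + l →
    T.bdry (cell i j) = wE (d i) (a i) ∆ wE (d j) (a j) ∆ arcE c i j
  add : ∀ i j k, i ≤ j → j ≤ k → k ≤ i + l →
    cell i k = cell i j ∪ cell j k ∧ Disjoint (cell i j) (cell j k)
  full : ∀ i, cell i (i + l) = Eᶜ

end

/-- B1. Mass is almost additive; boundary vertices are few. -/
def StmtMass : Prop := ∀ (V F : Type) [Fintype V] [Fintype F] (T : Tri V F), T.Sphere →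
  (∀ Y, (T.Vbd Y).card ≤ T.len Y) ∧
  ∀ L : Finset V,
    (∀ X Y, X ⊆ Y → T.m L X ≤ T.m L Y) ∧
    (∀ X, T.m L X ≤ (T.Vin X).card) ∧
    (∀ X Y Z, X ⊆ Y ∪ Z → T.m L X ≤ T.m L Y + T.m L Z + T.len Y + T.len Z) ∧
    (∀ X Y, X ⊆ Y → T.m L Y ≤ T.m L X + T.m L (Y \ X) + T.len X) ∧
    (∀ X, L.card ≤ T.m L X + T.m L Xᶜ + T.len X) ∧
    (∀ X Y, T.len (X ∪ Y) ≤ T.len X + T.len Y ∧ T.len (X \ Y) ≤ T.len X + T.len Y ∧
      T.len (X ∩ Y) ≤ T.len X + T.len Y ∧ T.len Xᶜ = T.len X)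

/-- B2. Existence of the legs. -/
def StmtLegs : Prop := ∀ (V F : Type) [Fintype V] [Fintype F] (T : Tri V F), T.Sphere →
  ∀ E l c H u, T.Enum E l c → H ≤ T.G → (∀ v w, H.Adj v w → s(v, w) ∉ T.inn E) →
    u ∈ T.Vin Eᶜ → (∀ i, ∃ t, Within H t u (c i)) → ∃ d a, T.Legs E l c H u d a

/-- B3. The criterion (G): around a bad vertex consecutive arrival times are small. -/
def StmtG : Prop := ∀ (V F : Type) [Fintype V] [Fintype F] (T : Tri V F), T.Sphere →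
  ∀ E l c u e (f : ℤ → ℕ), T.Enum E l c → u ∈ T.Vin Eᶜ → Bad T.G e u →
    e ≤ (T.Vin E).card → (∀ i, f (i + l) = f i) → (∀ i, f (i + 1) ≤ f i + 1 ∧ f i ≤ f (i + 1) + 1) →
    (∀ i t, Hits T.G (T.Vbd E) u t (c i) → f i ≤ t) → ∀ i, f i + f (i + 1) + 1 ≤ l

/-- B4. Existence of the cells; single sectors are pairwise disjoint. -/
def StmtCells : Prop := ∀ (V F : Type) [Fintype V] [Fintype F] (T : Tri V F), T.Sphere →
  ∀ E l c H u d a, T.Legs E l c H u d a → ∃ cell, T.Cells E l c d a cell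

/-- B5. Single sectors. -/
def StmtSector : Prop := ∀ (V F : Type) [Fintype V] [Fintype F] (T : Tri V F), T.Sphere →
  ∀ E l c H u d a cell, T.Legs E l c H u d a → T.Cells E l c d a cell →
    (∀ i, cell i (i + 1) = ∅ ∨ T.Bond (cell i (i + 1))) ∧
    (∀ i, a i 1 = a (i + 1) 1 → u ∉ T.Vbd (cell i (i + 1)) ∧
      (cell i (i + 1) = ∅ ∨ T.len (cell i (i + 1)) + 1 ≤ d i + d (i + 1))) ∧
    (∀ i, a i 1 ≠ a (i + 1) 1 → u ∈ T.Vbd (cell i (i + 1)) ∧ T.Bond (cell i (i + 1)) ∧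
      T.len (cell i (i + 1)) = d i + d (i + 1) + 1) ∧
    (∀ i j, i ≤ j → j ≤ i + l → a i 1 = a j 1 → u ∉ T.Vbd (cell i j)) ∧
    (∀ i j : ℤ, i ≤ j → j ≤ i + l → T.len (cell i j) ≤ d i + d j + (j - i).toNat)

/-- B6. Obstacles are not cut by the cells. -/
def StmtObst : Prop := ∀ (V F : Type) [Fintype V] [Fintype F] (T : Tri V F), T.Sphere →
  ∀ E l c H u d a cell, T.Legs E l c H u d a → T.Cells E l c d a cell →
    ∀ D, T.DC D → Disjoint D E → (∀ v w, H.Adj v w → s(v, w) ∉ T.inn D) →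
      (∀ i j, i ≤ j → j ≤ i + l → D ⊆ cell i j ∨ Disjoint D (cell i j)) ∧
      ∀ i₀ : ℤ, ∃ i, i₀ ≤ i ∧ i < i₀ + l ∧ D ⊆ cell i (i + 1)

/-- B7. The wedge lemma: if the legs `i` and `j` start with the same edge then the cell between
them can be saved from `u`. -/
def StmtWedge : Prop := ∀ (V F : Type) [Fintype V] [Fintype F] (T : Tri V F), T.Sphere →
  ∀ E l c H u d a cell e, T.Legs E l c H u d a → T.Cells E l c d a cell → T.Iso E l c →
    Bad T.G e u → (∀ i j, j ≤ d i → ∀ t, Within T.G t u (a i j) → j ≤ t) →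
    ∀ i j, i < j → j < i + l → a i 1 = a j 1 → u ∈ T.Vin (cell i j)ᶜ → (T.Vin (cell i j)).card < e

/-- B8. Counting the sectors at `u`: at most `11` of them, and the mass bound. -/
def StmtSum : Prop := ∀ (V F : Type) [Fintype V] [Fintype F] (T : Tri V F), T.Sphere →
  ∀ E l c H u d a cell e κ L, T.Legs E l c H u d a → T.Cells E l c d a cell →
    (univ.filter fun v => T.G.Adj u v).card ≤ 11 → (∀ i, d i ≤ l) →
    (∀ i j, i < j → j < i + l → a i 1 = a j 1 → u ∈ T.Vin (cell i j)ᶜ →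
      (T.Vin (cell i j)).card < e) →
    ∀ i₀, a i₀ 1 ≠ a (i₀ + 1) 1 →
      (∀ i, i₀ < i → i < i₀ + l → a i 1 ≠ a (i + 1) 1 → T.m L (cell i (i + 1)) ≤ κ) →
      T.m L (cell (i₀ + 1) (i₀ + l)) ≤ 12 * (e + κ + 20 * l)

/-- B9. Rerouting around obstacles while avoiding further sets (generalizes `StmtAvoid`). -/
def StmtAvoid2 : Prop := ∀ (V F : Type) [Fintype V] [Fintype F] (T : Tri V F), T.Sphere →
  ∀ Es Ds, T.Obst Ds → (∀ X ∈ Ds, ∀ Y ∈ Es, Disjoint X Y) → ∀ t u v,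
    (∀ X ∈ Ds, u ∉ T.Vin X) → (∀ X ∈ Ds, v ∉ T.Vin X) →
    Within (T.avoid Es) t u v → Within (T.avoid (Es ∪ Ds)) t u v

/-- B10. Legs around a saved side `E` that need not be isometric, with one obstacle `D`: a bad
vertex `u` outside `E` and `D` lies on the boundary of a cut that is not longer than `E`. -/
def StmtCut : Prop := ∀ (V F : Type) [Fintype V] [Fintype F] (T : Tri V F), T.Sphere →
  ∀ E D u e, T.Bond E → T.Bond D → T.IN D → Disjoint E D → u ∈ T.Vin Eᶜ → u ∈ T.Vin Dᶜ →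
    Bad T.G e u → e ≤ (T.Vin E).card →
    (∀ Y, E ⊆ Y → Disjoint Y D → T.len E ≤ T.len Y) →
    ∃ Y, E ⊆ Y ∧ Disjoint Y D ∧ T.len Y = T.len E ∧ u ∈ T.Vbd Y

/-- B11. Filling lemma. -/
def StmtFilling : Prop := ∀ (V F : Type) [Fintype V] [Fintype F] (T : Tri V F), T.Sphere →
  ∀ L e S X, T.BadSet L e → T.Bond S → T.IN Sᶜ → T.Bond X → X ⊆ S → e ≤ (T.Vin X).card →
    ∃ E, T.Bond E ∧ X ⊆ E ∧ E ⊆ S ∧ T.len E ≤ T.len X ∧ T.m L S ≤ T.m L E + T.len E

/-- B12. Balanced separator. -/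
def StmtSeparator : Prop := ∀ (V F : Type) [Fintype V] [Fintype F] (T : Tri V F), T.Sphere →
  ∀ (L : Finset V) (o : V) (r : ℕ), (∀ v, Within T.G r o v) → 24 * r + 48 ≤ L.card →
    ∃ S, T.Bond S ∧ T.len S ≤ 2 * r + 1 ∧ L.card ≤ 4 * T.m L S ∧ L.card ≤ 4 * T.m L Sᶜ

/-- B13. A balanced bond of minimal length has a side without shortcuts. -/
def StmtBalanced : Prop := ∀ (V F : Type) [Fintype V] [Fintype F] (T : Tri V F), T.Sphere →
  ∀ (L : Finset V) (b : ℕ), 1 ≤ b → 100 * b ≤ L.card →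
    (∃ S, T.Bond S ∧ T.len S ≤ b ∧ L.card ≤ 4 * T.m L S ∧ L.card ≤ 4 * T.m L Sᶜ) →
    ∃ S, T.Bond S ∧ T.len S ≤ b ∧ L.card ≤ 5 * T.m L S ∧ L.card ≤ 5 * T.m L Sᶜ ∧ T.IN Sᶜ

/-- B14. Isometry of short heavy bonds. -/
def StmtIsoCut : Prop := ∀ (V F : Type) [Fintype V] [Fintype F] (T : Tri V F), T.Sphere →
  ∀ L e S X l, T.Bond S → T.IN Sᶜ → T.Bond X → X ⊆ S → T.len X = l →
    (∀ Y, T.Bond Y → Y ⊆ S → e ≤ T.m L Y → l ≤ T.len Y) → 1 ≤ e →
    2 * e + 2 * l ≤ T.m L X → ∃ c, T.Iso X l c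

end Pool.Agent.Helper34.FF
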