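import Pool.Agent.Helper34.FF.Goals2b

/-!
# Third batch: the regime, splitting, three blobs, the annulus
-/

namespace Pool.Agent.Helper34.FF

open Finset
open scoped symmDiff Classical

section
variable {V F : Type} [Fintype V] [Fintype F] (T : Tri V F)

/-- The regime: `T₁` is a heavy isometric bond of length `l`, short bonds inside it are light. -/
structure Tri.Reg (L : Finset V) (e l : ℕ) (T₁ : Finset F) : Prop where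
  one : 1 ≤ e
  bad : T.BadSet L e
  bond : T.Bond T₁
  len : T.len T₁ = l
  out : e ≤ T.m L T₁ᶜ
  r1 : ∀ X, T.Bond X → X ⊆ T₁ → e ≤ T.m L X → l ≤ T.len X
  r2 : ∀ X, T.Bond X → X ⊆ T₁ → T.len X = l → 2 * e + 2 * l ≤ T.m L X → ∃ c, T.Iso X l c

/-- Three blobs. -/
structure Tri.Blobs (e l : ℕ) (B : Fin 3 → Finset F) : Prop where
  one : 1 ≤ e
  disj : ∀ i j, i ≠ j → Disjoint (B i) (B j)
  iso : ∀ i, ∃ c, T.Iso (B i) l c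
  big : ∀ i, e ≤ (T.Vin (B i)).card
  wit : ∀ i, ∃ w ∈ T.Vin (B i), Bad T.G e w
  sep : ∀ Y, (∀ i, B i ⊆ Y ∨ Disjoint Y (B i)) → (∃ i, B i ⊆ Y) → (∃ i, Disjoint Y (B i)) →
    l ≤ T.len Y
  cut : ∀ Y, (∀ i, B i ⊆ Y ∨ Disjoint Y (B i)) → (∃ i, B i ⊆ Y) → (∃ i, Disjoint Y (B i)) →
    T.len Y = l → ∃ c, T.Iso Y l c

/-- `A` is a cut of length `l` between the blob `i` and the two others. -/
def Tri.Cl (B : Fin 3 → Finset F) (l : ℕ) (i : Fin 3) (A : Finset F) : Prop :=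
  B i ⊆ A ∧ (∀ j, j ≠ i → Disjoint A (B j)) ∧ T.len A = l

/-- `A` is the largest cut of length `l` between the blob `i` and the two others. -/
def Tri.MaxCl (B : Fin 3 → Finset F) (l : ℕ) (i : Fin 3) (A : Finset F) : Prop :=
  T.Cl B l i A ∧ ∀ A', T.Cl B l i A' → A' ⊆ A

/-- The annulus between `Xa` and `T₁`, with thin cuts through all vertices of `L` in it. -/
structure Tri.Ann (L : Finset V) (e l lam : ℕ) (Xa T₁ : Finset F) : Prop where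
  one : 1 ≤ e
  bad : ∀ u ∈ L, Bad T.G e u
  sub : Xa ⊆ T₁
  bondX : T.Bond Xa
  bondT : T.Bond T₁
  sep : ∀ Y, Xa ⊆ Y → Y ⊆ T₁ → l ≤ T.len Y
  iso : ∀ Y, Xa ⊆ Y → Y ⊆ T₁ → T.len Y = l → ∃ c, T.Iso Y l c
  thin : ∀ u ∈ L, u ∈ T.Vin T₁ → u ∈ T.Vin Xaᶜ →
    (∃ Y, Xa ⊆ Y ∧ Y ⊆ T₁ ∧ T.len Y = l ∧ u ∈ T.Vbd Y ∧ T.m L (Y \ Xa) ≤ lam) ∧
    (∃ Y, Xa ⊆ Y ∧ Y ⊆ T₁ ∧ T.len Y = l ∧ u ∈ T.Vbd Y ∧ T.m L (T₁ \ Y) ≤ lam)

end

/-- C1. The regime exists. -/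
def StmtRegime : Prop := ∀ (V F : Type) [Fintype V] [Fintype F] (T : Tri V F), T.Sphere →
  ∀ (L : Finset V) (e : ℕ) (o : V) (r : ℕ), 1 ≤ e → T.BadSet L e → (∀ v, Within T.G r o v) →
    200 * (e + 2 * r + 1) ≤ L.card →
    ∃ T₁ l, T.Reg L e l T₁ ∧ l ≤ 2 * r + 1 ∧ L.card ≤ 10 * T.m L T₁

/-- C2. Splitting. -/
def StmtSplit : Prop := ∀ (V F : Type) [Fintype V] [Fintype F] (T : Tri V F), T.Sphere →
  ∀ L e l T₁ X, T.Reg L e l T₁ → T.Bond X → X ⊆ T₁ → T.len X = l → 1000 * (e + l) ≤ T.m L X →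
    ∃ X', T.Bond X' ∧ X' ⊆ X ∧ T.len X' = l ∧ T.m L X ≤ 60 * T.m L X' ∧
      2 * T.m L X' < T.m L X

/-- C3. Two disjoint heavy bonds in `T₁` and the complement of `T₁` are three blobs. -/
def StmtMkBlobs : Prop := ∀ (V F : Type) [Fintype V] [Fintype F] (T : Tri V F), T.Sphere →
  ∀ L e l T₁ X X', T.Reg L e l T₁ → T.Bond X → T.Bond X' → X ⊆ T₁ → X' ⊆ T₁ → Disjoint X X' →
    T.len X = l → T.len X' = l → 2 * e + 2 * l ≤ T.m L X → 2 * e + 2 * l ≤ T.m L X' →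
    T.Blobs e l ![X, X', T₁ᶜ]

/-- C4. Largest cuts exist. -/
def StmtMaxCl : Prop := ∀ (V F : Type) [Fintype V] [Fintype F] (T : Tri V F), T.Sphere →
  ∀ e l B, T.Blobs e l B → ∀ i, ∃ A, T.MaxCl B l i A

/-- C5. Every bad vertex outside the blobs is on cuts of two types. -/
def StmtTypes : Prop := ∀ (V F : Type) [Fintype V] [Fintype F] (T : Tri V F), T.Sphere →
  ∀ e l B u, T.Blobs e l B → Bad T.G e u → (∀ i, u ∈ T.Vin (B i)ᶜ) →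
    ∃ i j, i ≠ j ∧ (∃ A, T.Cl B l i A ∧ u ∈ T.Vbd A) ∧ ∃ A, T.Cl B l j A ∧ u ∈ T.Vbd A

/-- C6. The geometry of two largest cuts of different types. -/
def StmtPairGeo : Prop := ∀ (V F : Type) [Fintype V] [Fintype F] (T : Tri V F), T.Sphere →
  ∀ e l Bl i j k A B, T.Blobs e l Bl → i ≠ j → i ≠ k → j ≠ k → T.MaxCl Bl l i A →
    T.MaxCl Bl l j B → (A ∩ B).Nonempty →
    ∃ (h : ℕ) (c₁ c₂ : ℤ → V), T.Bond A ∧ T.Bond B ∧ T.Bond (A ∪ B)ᶜ ∧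
      T.Iso (A \ B) l c₁ ∧ T.Iso (B \ A) l c₂ ∧ 1 ≤ h ∧ 2 * h ≤ l ∧ c₁ 0 = c₂ 0 ∧ c₁ h = c₂ h ∧
      T.btw (A \ B) B = arcE c₁ 0 h ∧ T.btw (A \ B) (A ∪ B)ᶜ = arcE c₁ h l ∧
      T.btw (B \ A) A = arcE c₂ 0 h ∧ T.btw (B \ A) (A ∪ B)ᶜ = arcE c₂ h l ∧
      T.btw (A ∩ B) (A ∪ B)ᶜ = ∅

/-- C7. The barrier around the intersection. -/
def StmtPairBar : Prop := ∀ (V F : Type) [Fintype V] [Fintype F] (T : Tri V F), T.Sphere →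
  ∀ e l A B (h : ℕ) (c₁ c₂ : ℤ → V) w, T.Bond A → T.Bond B → T.Bond (A ∪ B)ᶜ →
    T.Iso (A \ B) l c₁ → T.Iso (B \ A) l c₂ → 1 ≤ h → 2 * h ≤ l → c₁ 0 = c₂ 0 → c₁ h = c₂ h →
    T.btw (A \ B) B = arcE c₁ 0 h → T.btw (A \ B) (A ∪ B)ᶜ = arcE c₁ h l →
    T.btw (B \ A) A = arcE c₂ 0 h → T.btw (B \ A) (A ∪ B)ᶜ = arcE c₂ h l →
    T.btw (A ∩ B) (A ∪ B)ᶜ = ∅ → w ∈ T.Vin (A ∪ B)ᶜ → Bad T.G e w →
    (T.Vin (A ∩ B)).card < e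

/-- C8. Three blobs: few bad vertices outside. -/
def StmtThreeBlobs : Prop := ∀ (V F : Type) [Fintype V] [Fintype F] (T : Tri V F), T.Sphere →
  ∀ (L : Finset V) e l B, T.Blobs e l B → (∀ u ∈ L, Bad T.G e u) →
    (L.filter fun u => ∀ i, u ∈ T.Vin (B i)ᶜ).card ≤ 3 * e + 3 * l

/-- C9. No heavy bond beside a heavy bond. -/
def StmtNoThird : Prop := ∀ (V F : Type) [Fintype V] [Fintype F] (T : Tri V F), T.Sphere →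
  ∀ L e l T₁ X H, T.Reg L e l T₁ → T.Bond X → T.Bond H → X ⊆ T₁ → H ⊆ T₁ → Disjoint X H →
    T.len X = l → T.len H = l → 2 * e + 2 * l ≤ T.m L X → T.m L H < 1000 * (e + l)

/-- C10. The annulus. -/
def StmtAnn : Prop := ∀ (V F : Type) [Fintype V] [Fintype F] (T : Tri V F), T.Sphere →
  ∀ L e l T₁, T.Reg L e l T₁ → 2000 * (e + l) ≤ T.m L T₁ →
    ∃ Xa, T.Ann L e l (11011 * (e + l)) Xa T₁ ∧
      T.m L T₁ ≤ 2 * ((L ∩ T.Vin T₁) ∩ T.Vin Xaᶜ).card + 2 * l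

end Pool.Agent.Helper34.FF
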