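import Pool.Agent.Helper34.FF.Goals3

/-!
# Fourth batch: the endgame in the annulus
-/

namespace Pool.Agent.Helper34.FF

open Finset
open scoped symmDiff Classical

section
variable {V F : Type} [Fintype V] [Fintype F] (T : Tri V F)

/-- The vertices of `L` strictly between `Xa` and `T₁`. -/
noncomputable def Tri.UU (L : Finset V) (Xa T₁ : Finset F) : Finset V :=
  (L ∩ T.Vin T₁) ∩ T.Vin Xaᶜ

/-- The positions of `x, y, z` on the isometric boundary of `X` are `0 < p < q`. -/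
def Tri.Pos (X : Finset F) (l : ℕ) (c : ℤ → V) (p q : ℕ) (x y z : V) : Prop :=
  T.Iso X l c ∧ c 0 = x ∧ c p = y ∧ c q = z ∧ 0 < p ∧ p < q ∧ q < l ∧
    T.G.dist x y = min p (l - p) ∧ T.G.dist y z = min (q - p) (l - (q - p)) ∧
    T.G.dist x z = min q (l - q)

/-- Two cuts `P ⊆ S` of length `l` in the annulus, close to its two ends, such that the three
vertices `x, y, z` of `L` are on both boundaries. -/
structure Tri.Trip (L : Finset V) (l lam : ℕ) (Xa T₁ P S : Finset F) (x y z : V) : Prop where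
  XP : Xa ⊆ P
  PS : P ⊆ S
  ST : S ⊆ T₁
  lenP : T.len P = l
  lenS : T.len S = l
  hx : x ∈ L ∧ x ∈ T.Vbd P ∧ x ∈ T.Vbd S
  hy : y ∈ L ∧ y ∈ T.Vbd P ∧ y ∈ T.Vbd S
  hz : z ∈ L ∧ z ∈ T.Vbd P ∧ z ∈ T.Vbd S
  xy : x ≠ y
  yz : y ≠ z
  xz : x ≠ z
  massS : T.m L (T₁ \ S) ≤ 3 * lam + 3 * l
  massP : T.m L (P \ Xa) ≤ 3 * lam + 3 * l

/-- `u` is not strictly inside `D` or outside `S`. -/
def Tri.Cmp (D S : Finset F) (u : V) : Prop := u ∉ T.Vin D ∧ u ∉ T.Vin Sᶜ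

end

/-- E1. The lattice of cuts in the annulus. -/
def StmtLat : Prop := ∀ (V F : Type) [Fintype V] [Fintype F] (T : Tri V F), T.Sphere →
  ∀ L e l lam Xa T₁, T.Ann L e l lam Xa T₁ → ∀ X X', Xa ⊆ X → X ⊆ T₁ → T.len X = l →
    Xa ⊆ X' → X' ⊆ T₁ → T.len X' = l →
    T.len (X ∩ X') = l ∧ T.len (X ∪ X') = l ∧
    (∀ u ∈ T.Vbd X, u ∉ T.Vin X'ᶜ → u ∈ T.Vbd (X ∩ X')) ∧
    (∀ u ∈ T.Vbd X, u ∉ T.Vin X' → u ∈ T.Vbd (X ∪ X'))

/-- E2. Three compatible vertices are on two common cuts. -/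
def StmtTriple : Prop := ∀ (V F : Type) [Fintype V] [Fintype F] (T : Tri V F), T.Sphere →
  ∀ L e l lam Xa T₁, T.Ann L e l lam Xa T₁ → ∀ (u : Fin 3 → V) (D S : Fin 3 → Finset F),
    (∀ i, u i ∈ L) → (∀ i j, i ≠ j → u i ≠ u j) →
    (∀ i, Xa ⊆ D i ∧ D i ⊆ T₁ ∧ T.len (D i) = l ∧ u i ∈ T.Vbd (D i) ∧
      T.m L (D i \ Xa) ≤ lam) →
    (∀ i, Xa ⊆ S i ∧ S i ⊆ T₁ ∧ T.len (S i) = l ∧ u i ∈ T.Vbd (S i) ∧
      T.m L (T₁ \ S i) ≤ lam) →
    (∀ i j, i ≠ j → T.Cmp (D j) (S j) (u i)) →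
    ∃ P S', T.Trip L l lam Xa T₁ P S' (u 0) (u 1) (u 2)

/-- E3. Positions of three vertices on an isometric cycle. -/
def StmtPos : Prop := ∀ (V F : Type) [Fintype V] [Fintype F] (T : Tri V F), T.Sphere →
  ∀ X l c x y z, T.Iso X l c → x ∈ T.Vbd X → y ∈ T.Vbd X → z ∈ T.Vbd X → x ≠ y → y ≠ z →
    x ≠ z → ∃ c' p q, T.Pos X l c' p q x y z

/-- E4. Beads are light. -/
def StmtBead : Prop := ∀ (V F : Type) [Fintype V] [Fintype F] (T : Tri V F), T.Sphere →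
  ∀ (P S Z D : Finset F) (l δ : ℕ) (c c' : ℤ → V) (q q' : ℤ) (w : V) (e : ℕ),
    T.Iso P l c → T.Iso S l c' → P ⊆ S → D.Nonempty → Disjoint S D → Disjoint Z D →
    1 ≤ δ → 2 * δ ≤ l → c' 0 = c 0 → c' δ = c δ → δ < q → q < l → δ < q' → q' < l →
    w = c q → w = c' q' → Bad T.G e w →
    T.bdry Z = arcE c' 0 δ ∆ arcE c 0 δ → (T.Vin Z).card < e

/-- E5. One of the three vertices is between the two others. -/
def StmtMiddle : Prop := ∀ (V F : Type) [Fintype V] [Fintype F] (T : Tri V F), T.Sphere →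
  ∀ L e l lam Xa T₁ P S x y z, T.Ann L e l lam Xa T₁ → T.Trip L l lam Xa T₁ P S x y z →
    6 * lam + 10 * l + 3 * e < (T.UU L Xa T₁).card →
    (T.G.dist x z = T.G.dist x y + T.G.dist y z ∧ 2 * T.G.dist x z < l) ∨
    (T.G.dist x y = T.G.dist x z + T.G.dist z y ∧ 2 * T.G.dist x y < l) ∨
    (T.G.dist y z = T.G.dist y x + T.G.dist x z ∧ 2 * T.G.dist y z < l)

/-- E6. The cut that runs along `S` from `x` through `y` to `z` and along `P` elsewhere. -/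
def StmtFill : Prop := ∀ (V F : Type) [Fintype V] [Fintype F] (T : Tri V F), T.Sphere →
  ∀ L e l lam Xa T₁ P S x y z, T.Ann L e l lam Xa T₁ → T.Trip L l lam Xa T₁ P S x y z →
    T.G.dist x z = T.G.dist x y + T.G.dist y z → 2 * T.G.dist x z < l →
    ∃ A c, Xa ⊆ A ∧ A ⊆ S ∧ T.len A = l ∧ T.m L (A \ Xa) ≤ 3 * lam + 6 * l + 2 * e ∧
      T.Iso S l c ∧ c 0 = x ∧ c (T.G.dist x z) = z ∧ arcE c 0 (T.G.dist x z) ⊆ T.bdry A

/-- E7. Vertices between the cuts `A` and `S` are not between `x` and `z`. -/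
def StmtNotBetween : Prop := ∀ (V F : Type) [Fintype V] [Fintype F] (T : Tri V F), T.Sphere →
  ∀ L e l lam Xa T₁ A S c (δ : ℕ) x z w, T.Ann L e l lam Xa T₁ → Xa ⊆ A → A ⊆ S → S ⊆ T₁ →
    T.len A = l → T.Iso S l c → 1 ≤ δ → 2 * δ < l → c 0 = x → c δ = z →
    arcE c 0 δ ⊆ T.bdry A → w ∈ T.Vin Aᶜ → w ∉ T.Vin Sᶜ →
    T.G.dist x w + T.G.dist w z ≠ δ

/-- E8. The three vertices of a triple: one of them is between the two others, and few vertices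
are. -/
def StmtThinPair : Prop := ∀ (V F : Type) [Fintype V] [Fintype F] (T : Tri V F), T.Sphere →
  ∀ L e l lam Xa T₁ P S x y z, T.Ann L e l lam Xa T₁ → T.Trip L l lam Xa T₁ P S x y z →
    T.G.dist x z = T.G.dist x y + T.G.dist y z → 2 * T.G.dist x z < l →
    ((T.UU L Xa T₁).filter fun w => T.G.dist x w + T.G.dist w z = T.G.dist x z).card ≤
      6 * lam + 10 * l + 2 * e

/-- E9. The counting lemma. -/
def StmtCount : Prop := ∀ (V : Type) (U : Finset V) (R : V → V → Prop) (N : V → V → V → Prop)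
  (M μ : ℕ), (∀ x z w, N x z w → N z x w) → (∀ v ∈ U, (U.filter (R v)).card ≤ M) →
  (∀ x ∈ U, ∀ y ∈ U, ∀ z ∈ U, x ≠ y → y ≠ z → x ≠ z → ¬ R x y → ¬ R y x → ¬ R y z → ¬ R z y →
    ¬ R x z → ¬ R z x →
    (N x z y ∧ (U.filter (N x z)).card ≤ μ) ∨ (N x y z ∧ (U.filter (N x y)).card ≤ μ) ∨
    (N y z x ∧ (U.filter (N y z)).card ≤ μ)) →
  U.card ≤ 3 + 6 * M + 3 * μ

/-- E10. The end: the annulus contains few vertices of `L`. -/
def StmtEnd : Prop := ∀ (V F : Type) [Fintype V] [Fintype F] (T : Tri V F), T.Sphere →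
  ∀ L e l lam Xa T₁, T.Ann L e l lam Xa T₁ →
    (T.UU L Xa T₁).card ≤ 30 * lam + 40 * l + 10 * e + 3

/-- The main inequality. -/
def StmtMain : Prop := ∀ (V F : Type) [Fintype V] [Fintype F] (T : Tri V F), T.Sphere →
  ∀ (L : Finset V) (e : ℕ) (o : V) (r : ℕ), 1 ≤ e → T.BadSet L e → (∀ v, Within T.G r o v) →
    L.card ≤ 10 ^ 7 * (e + 2 * r + 1)

end Pool.Agent.Helper34.FF
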