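import Mathlib
import Pool.Agent.Helper28.PL.Goals

/-!
# Planarity by rotation systems on Mathlib darts, and the plane maps of helper28
-/

namespace Pool.Agent.Helper34.FF.Rot

open Equiv

/-- The reversal of darts (oriented edges). -/
def rev {V : Type} (H : SimpleGraph V) : Perm H.Dart :=
  Function.Involutive.toPerm SimpleGraph.Dart.symm SimpleGraph.Dart.symm_involutive

/-- `σ` is a rotation system of `H`: a permutation of the darts whose cycles are the sets of all
darts that start at a given vertex. -/
def IsRotation {V : Type} (H : SimpleGraph V) (σ : Perm H.Dart) : Prop :=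
  ∀ d e : H.Dart, σ.SameCycle d e ↔ d.fst = e.fst

/-- The number of faces of a rotation system: the number of cycles of the face permutation
(reverse a dart, then rotate). -/
noncomputable def numFaces {V : Type} (H : SimpleGraph V) (σ : Perm H.Dart) : ℕ :=
  Nat.card (Quotient (Perm.SameCycle.setoid (σ * rev H)))

theorem planar_of_rot {V : Type} [Fintype V] (G H : SimpleGraph V) (h2 : 2 ≤ Fintype.card V)
    (hGH : G ≤ H) (hc : H.Connected) (σ : Perm H.Dart) (hσ : IsRotation H σ)
    (he : Nat.card V + numFaces H σ = Nat.card H.edgeSet + 2) : Helper28.PL.Planar G := by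
  classical
  haveI : Finite H.Dart := inferInstance
  letI iD : Fintype H.Dart := Fintype.ofFinite _
  letI iE : Fintype H.edgeSet := Fintype.ofFinite _
  haveI : Finite (Quotient (Perm.SameCycle.setoid (σ * rev H))) := Quotient.finite _
  letI iF : Fintype (Quotient (Perm.SameCycle.setoid (σ * rev H))) := Fintype.ofFinite _
  have hnb : ∀ v : V, ∃ w, H.Adj v w := by
    intro v
    have : Nontrivial V := Fintype.one_lt_card_iff_nontrivial.1 (by omega)
    exact hc.preconnected.exists_adj_of_nontrivial v
  refine ⟨H.Dart, H.edgeSet, Quotient (Perm.SameCycle.setoid (σ * rev H)), iD, iE, iF,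
    { σ := σ
      α := rev H
      vt := fun d => d.fst
      ed := fun d => ⟨d.edge, d.edge_mem⟩
      fc := fun d => Quotient.mk _ d
      α_inv := ?_, α_ne := ?_, vt_iff := ?_, ed_iff := ?_, fc_iff := ?_, vt_surj := ?_,
      ed_surj := ?_, fc_surj := ?_, conn := ?_, euler := ?_ }, ?_, ?_⟩
  · intro d
    exact d.symm_symm
  · intro d
    exact d.symm_ne
  · intro d e
    exact (hσ d e).symm
  · intro d e
    rw [Subtype.mk.injEq, SimpleGraph.dart_edge_eq_iff]
    constructor
    · rintro (h | h)
      · exact Or.inl h.symm
      · right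
        rw [h]
        exact e.symm_symm.symm
    · rintro (h | h)
      · exact Or.inl h.symm
      · right
        rw [h]
        exact d.symm_symm.symm
  · intro d e
    exact Quotient.eq (r := Perm.SameCycle.setoid (σ * rev H))
  · intro v
    obtain ⟨w, hw⟩ := hnb v
    exact ⟨⟨(v, w), hw⟩, rfl⟩
  · rintro ⟨e, hmem⟩
    induction e using Sym2.ind with
    | _ v w => exact ⟨⟨(v, w), hmem⟩, rfl⟩
  · exact Quotient.mk_surjective
  · intro P ⟨d₀, h₀⟩ hPσ hPα
    have hpow : ∀ (d : H.Dart) (n : ℕ), P d → P ((σ ^ n) d) := by
      intro d n hd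
      induction n with
      | zero => simpa using hd
      | succ n ih =>
        rw [pow_succ']
        exact hPσ _ ih
    have hcyc : ∀ d e : H.Dart, d.fst = e.fst → P d → P e := by
      intro d e hde hd
      obtain ⟨n, -, -, hn⟩ := ((hσ d e).2 hde).exists_pow_eq''
      rw [← hn]
      exact hpow d n hd
    have key : ∀ (v w : V) (p : H.Walk v w), (∀ d : H.Dart, d.fst = v → P d) →
        ∀ d : H.Dart, d.fst = w → P d := by
      intro v w p
      induction p with
      | nil => exact id
      | @cons a b c hab q ih =>
        intro h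
        apply ih
        intro d hd
        have h1 : P (⟨(a, b), hab⟩ : H.Dart) := h _ rfl
        have h2 := hPα _ h1
        exact hcyc _ _ (by rw [hd]; rfl) h2
    intro d
    obtain ⟨p⟩ := hc.preconnected d₀.fst d.fst
    exact key _ _ p (fun e he' => hcyc d₀ e he'.symm h₀) d rfl
  · simp only [Nat.card_eq_fintype_card, numFaces] at he
    exact he
  · constructor
    · intro d
      exact d.adj.ne'
    · intro d e h1 h2
      apply SimpleGraph.Dart.ext
      exact Prod.ext h1 h2
  · intro u v huv
    exact ⟨⟨(u, v), hGH huv⟩, rfl, rfl⟩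

end Pool.Agent.Helper34.FF.Rot
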