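import Pool.Agent.Helper34.FF.G1
import Pool.Agent.Helper34.FF.Goals4
import Pool.Agent.Helper23.FF.StmtFill

/-!
# One of three vertices is between the two others (packet StmtMiddle of MP_7cb822_co)
-/

namespace Pool.Agent.Helper34.FF.Mid

open Finset Pool.Agent.Helper34.FF Pool.Agent.Helper23.FF
open scoped symmDiff Classical

theorem pf_StmtMiddle (hPos : StmtPos) (hBead : StmtBead) (hMass : StmtMass) : StmtMiddle := by
  intro V F _ _ T hT L e l lam Xa T₁ P S x y z hA hTr hU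
  by_contra hcon
  have n1 : T.G.dist x z = T.G.dist x y + T.G.dist y z → ¬ 2 * T.G.dist x z < l := by
    intro h h'
    exact hcon (Or.inl ⟨h, h'⟩)
  have n2 : T.G.dist x y = T.G.dist x z + T.G.dist y z → ¬ 2 * T.G.dist x y < l := by
    intro h h'
    exact hcon (Or.inr (Or.inl ⟨by rw [SimpleGraph.dist_comm (u := z)]; exact h, h'⟩))
  have n3 : T.G.dist y z = T.G.dist x y + T.G.dist x z → ¬ 2 * T.G.dist y z < l := by
    intro h h'
    exact hcon (Or.inr (Or.inr ⟨by rw [SimpleGraph.dist_comm (u := y) (v := x)]; exact h, h'⟩))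
  have hPT : P ⊆ T₁ := hTr.PS.trans hTr.ST
  have hXS : Xa ⊆ S := hTr.XP.trans hTr.PS
  obtain ⟨cP0, hP0⟩ := hA.iso P hTr.XP hPT hTr.lenP
  obtain ⟨cS0, hS0⟩ := hA.iso S hXS hTr.ST hTr.lenS
  obtain ⟨c, p, q, hp⟩ := hPos V F T hT P l cP0 x y z hP0 hTr.hx.2.1 hTr.hy.2.1 hTr.hz.2.1
    hTr.xy hTr.yz hTr.xz
  obtain ⟨c', p', q', hp'⟩ := hPos V F T hT S l cS0 x y z hS0 hTr.hx.2.2 hTr.hy.2.2 hTr.hz.2.2
    hTr.xy hTr.yz hTr.xz
  obtain ⟨iP, cx, cy, cz, p0, pq, ql, dxy, dyz, dxz⟩ := hp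
  obtain ⟨iS, cx', cy', cz', p0', pq', ql', dxy', dyz', dxz'⟩ := hp'
  have g1 : 2 * p ≤ l := by omega
  have g2 : 2 * (q - p) ≤ l := by omega
  have g3 : 2 * (l - q) ≤ l := by omega
  have g1' : 2 * p' ≤ l := by omega
  have g2' : 2 * (q' - p') ≤ l := by omega
  have g3' : 2 * (l - q') ≤ l := by omega
  have hq' : q' = q := by omega
  have hpp' : p' = p := by omega
  rw [hq'] at cz' pq' ql'
  rw [hpp'] at cy' p0' pq'
  have hDC := hA.bondT.2
  have hSD : Disjoint S T₁ᶜ := by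
    rw [disjoint_left]
    intro f hf hf'
    rw [mem_compl] at hf'
    exact hf' (hTr.ST hf)
  have hadd := (pAlg V F T).1
  have hper : ∀ (X : Finset F) (d : ℤ → V), T.Enum X l d → ∀ s : ℤ, d ((l : ℤ) - s + s) = d 0 := by
    intro X d hd s
    have := hd.per 0
    rw [zero_add] at this
    rw [sub_add_cancel, this]
  have hper0 : ∀ (X : Finset F) (d : ℤ → V), T.Enum X l d → d l = d 0 := by
    intro X d hd
    have := hd.per 0
    rw [zero_add] at this
    exact this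
  obtain ⟨Z1, bZ1, dZ1⟩ := exists_between T hT iP.1 iS.1 hTr.PS hDC hSD (i := 0) (j := p)
    (by omega) (by omega) (by rw [cx, cx']) (by rw [cy, cy'])
  obtain ⟨Z2, bZ2, dZ2⟩ := exists_between T hT iP.1 iS.1 hTr.PS hDC hSD (i := p) (j := q)
    (by omega) (by omega) (by rw [cy, cy']) (by rw [cz, cz'])
  obtain ⟨Z3, bZ3, dZ3⟩ := exists_between T hT iP.1 iS.1 hTr.PS hDC hSD (i := q) (j := l)
    (by omega) (by omega) (by rw [cz, cz']) (by rw [hper0 P c iP.1, hper0 S c' iS.1, cx, cx'])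
  have hl : ∀ u ∈ L, Bad T.G e u := hA.bad
  have m1 : (T.Vin Z1).card < e := by
    refine hBead V F T hT P S Z1 T₁ᶜ l p c c' q q z e iP iS hTr.PS hDC.1 hSD dZ1 (by omega)
      (by omega) (by rw [cx, cx']) (by rw [cy, cy']) (by omega) (by omega) (by omega) (by omega)
      cz.symm cz'.symm (hl z hTr.hz.1) bZ1
  have m2 : (T.Vin Z2).card < e := by
    refine hBead V F T hT P S Z2 T₁ᶜ l (q - p) (fun t => c (t + p)) (fun t => c' (t + p))
      ((l : ℤ) - p) ((l : ℤ) - p) x e (iso_shift T hT iP p) (iso_shift T hT iS p) hTr.PS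
      hDC.1 hSD dZ2 (by omega) (by omega) ?_ ?_ ?_ (by omega) ?_ (by omega) ?_ ?_
      (hl x hTr.hx.1) ?_
    · show c' (0 + p) = c (0 + p)
      rw [zero_add, cy, cy']
    · show c' (((q - p : ℕ) : ℤ) + p) = c (((q - p : ℕ) : ℤ) + p)
      rw [Nat.cast_sub pq.le, sub_add_cancel, cz, cz']
    · rw [Nat.cast_sub pq.le]; omega
    · rw [Nat.cast_sub pq.le]; omega
    · show x = c ((l : ℤ) - p + p)
      rw [hper P c iP.1, cx]
    · show x = c' ((l : ℤ) - p + p)
      rw [hper S c' iS.1, cx']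
    · rw [arcE_shift, arcE_shift, bZ2, zero_add, Nat.cast_sub pq.le, sub_add_cancel]
  have hyP : ∀ (X : Finset F) (d : ℤ → V), T.Enum X l d → d ((l : ℤ) - q + p + q) = d p := by
    intro X d hd
    have := hd.per p
    rw [show (l : ℤ) - q + p + q = p + l by ring, this]
  have m3 : (T.Vin Z3).card < e := by
    refine hBead V F T hT P S Z3 T₁ᶜ l (l - q) (fun t => c (t + q)) (fun t => c' (t + q))
      ((l : ℤ) - q + p) ((l : ℤ) - q + p) y e (iso_shift T hT iP q) (iso_shift T hT iS q) hTr.PS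
      hDC.1 hSD dZ3 (by omega) (by omega) ?_ ?_ ?_ (by omega) ?_ (by omega) ?_ ?_
      (hl y hTr.hy.1) ?_
    · show c' (0 + q) = c (0 + q)
      rw [zero_add, cz, cz']
    · show c' (((l - q : ℕ) : ℤ) + q) = c (((l - q : ℕ) : ℤ) + q)
      rw [Nat.cast_sub ql.le, sub_add_cancel, hper0 P c iP.1, hper0 S c' iS.1, cx, cx']
    · rw [Nat.cast_sub ql.le]; omega
    · rw [Nat.cast_sub ql.le]; omega
    · show y = c ((l : ℤ) - q + p + q)
      rw [hyP P c iP.1, cy]
    · show y = c' ((l : ℤ) - q + p + q)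
      rw [hyP S c' iS.1, cy']
    · rw [arcE_shift, arcE_shift, bZ3, zero_add, Nat.cast_sub ql.le, sub_add_cancel]
  obtain ⟨bondP, -, cardVP, -, -, fP1, -⟩ := pEnumFacts V F T hT P l c iP.1
  obtain ⟨bondS, -, cardVS, -, -, fS1, -⟩ := pEnumFacts V F T hT S l c' iS.1
  have fullP : arcE c 0 q ∆ arcE c q l = T.bdry P := by
    have := (fP1 0 q (by omega) (by omega)).2.2.1
    rwa [zero_add] at this
  have fullS : arcE c' 0 q ∆ arcE c' q l = T.bdry S := by
    have := (fS1 0 q (by omega) (by omega)).2.2.1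
    rwa [zero_add] at this
  have bZ : T.bdry (Z1 ∆ Z2 ∆ Z3) = T.bdry (S ∆ P) := by
    rw [hadd, hadd, hadd, bZ1, bZ2, bZ3, symmDiff_symmDiff_symmDiff_comm (arcE c' 0 p),
      ← arcE_split T hT iP.1 (i := 0) (j := p) (k := q) (by omega) (by omega)
      (by omega), ← arcE_split T hT iS.1 (i := 0) (j := p) (k := q) (by omega) (by omega)
      (by omega), symmDiff_symmDiff_symmDiff_comm, fullP, fullS]
  have hPd : Disjoint P T₁ᶜ := disjoint_of_subset_left hTr.PS hSD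
  obtain ⟨f₀, hf₀⟩ := hDC.1
  have notZ : f₀ ∉ Z1 ∆ Z2 ∆ Z3 := by
    have a1 : f₀ ∉ Z1 := fun h => disjoint_left.1 dZ1 h hf₀
    have a2 : f₀ ∉ Z2 := fun h => disjoint_left.1 dZ2 h hf₀
    have a3 : f₀ ∉ Z3 := fun h => disjoint_left.1 dZ3 h hf₀
    simp only [mem_symmDiff]
    tauto
  have notS : f₀ ∉ S ∆ P := by
    have a1 : f₀ ∉ S := fun h => disjoint_left.1 hSD h hf₀
    have a2 : f₀ ∉ P := fun h => disjoint_left.1 hPd h hf₀
    simp only [mem_symmDiff]
    tauto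
  have hEq : Z1 ∆ Z2 ∆ Z3 = S ∆ P := by
    have h0 : T.bdry ((Z1 ∆ Z2 ∆ Z3) ∆ (S ∆ P)) = ∅ := by
      rw [hadd, bZ, symmDiff_self]
      rfl
    rcases hT.dual _ h0 with h | h
    · exact symmDiff_eq_bot.1 h
    · exfalso
      have h1 : f₀ ∈ (Z1 ∆ Z2 ∆ Z3) ∆ (S ∆ P) := by
        rw [h]
        exact mem_univ _
      rw [mem_symmDiff] at h1
      rcases h1 with h1 | h1
      · exact notZ h1.1
      · exact notS h1.1
  have hincl : T.UU L Xa T₁ ⊆
      (L ∩ T.Vin (P \ Xa)) ∪ T.Vbd P ∪ (T.Vin Z1 ∪ T.Vbd Z1 ∪ (T.Vin Z2 ∪ T.Vbd Z2 ∪ T.Vin Z3)) ∪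
        (T.Vbd S ∪ (L ∩ T.Vin (T₁ \ S))) := by
    intro v hv
    rw [Tri.UU, mem_inter, mem_inter] at hv
    obtain ⟨⟨hvL, hvT⟩, hvX⟩ := hv
    rw [Tri.Vin, mem_filter] at hvT hvX
    have hvT := hvT.2
    have hvX := hvX.2
    rcases (pTri V F T hT).1 P v with h | h | h
    · rw [Tri.Vin, mem_filter] at h
      refine mem_union_left _ (mem_union_left _ (mem_union_left _ (mem_inter.2 ⟨hvL, ?_⟩)))
      rw [Tri.Vin, mem_filter]
      exact ⟨mem_univ _, fun f hf => mem_sdiff.2 ⟨h.2 f hf, mem_compl.1 (hvX f hf)⟩⟩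
    · exact mem_union_left _ (mem_union_left _ (mem_union_right _ h))
    · rw [Tri.Vin, mem_filter] at h
      rcases (pTri V F T hT).1 S v with h' | h' | h'
      · apply mem_union_left
        apply mem_union_right
        rw [Tri.Vin, mem_filter] at h'
        have hvZ : ∀ f, v ∈ T.tri f → f ∈ Z1 ∆ Z2 ∆ Z3 := by
          intro f hf
          rw [hEq, mem_symmDiff]
          exact Or.inl ⟨h'.2 f hf, mem_compl.1 (h.2 f hf)⟩
        rcases (pTri V F T hT).1 Z1 v with h1 | h1 | h1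
        · exact mem_union_left _ (mem_union_left _ h1)
        · exact mem_union_left _ (mem_union_right _ h1)
        · apply mem_union_right
          rcases (pTri V F T hT).1 Z2 v with h2 | h2 | h2
          · exact mem_union_left _ (mem_union_left _ h2)
          · exact mem_union_left _ (mem_union_right _ h2)
          · apply mem_union_right
            rw [Tri.Vin, mem_filter] at h1 h2 ⊢
            refine ⟨mem_univ _, fun f hf => ?_⟩
            have a := hvZ f hf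
            have a1 := mem_compl.1 (h1.2 f hf)
            have a2 := mem_compl.1 (h2.2 f hf)
            simp only [mem_symmDiff] at a
            tauto
      · exact mem_union_right _ (mem_union_left _ h')
      · rw [Tri.Vin, mem_filter] at h'
        apply mem_union_right
        refine mem_union_right _ (mem_inter.2 ⟨hvL, ?_⟩)
        rw [Tri.Vin, mem_filter]
        exact ⟨mem_univ _, fun f hf => mem_sdiff.2 ⟨hvT f hf, mem_compl.1 (h'.2 f hf)⟩⟩
  have hV1 : (T.Vbd Z1).card ≤ 2 * p := by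
    refine ((hMass V F T hT).1 Z1).trans ?_
    rw [Tri.len, bZ1]
    have := card_symmDiff_add (arcE c' 0 p) (arcE c 0 p)
    have e1 := (fP1 0 p (by omega) (by omega)).1
    have e2 := (fS1 0 p (by omega) (by omega)).1
    omega
  have hV2 : (T.Vbd Z2).card ≤ 2 * (q - p) := by
    refine ((hMass V F T hT).1 Z2).trans ?_
    rw [Tri.len, bZ2]
    have := card_symmDiff_add (arcE c' p q) (arcE c p q)
    have e1 := (fP1 p q (by omega) (by omega)).1
    have e2 := (fS1 p q (by omega) (by omega)).1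
    omega
  have hc := card_le_card hincl
  have u1 := card_union_le ((L ∩ T.Vin (P \ Xa)) ∪ T.Vbd P ∪
    (T.Vin Z1 ∪ T.Vbd Z1 ∪ (T.Vin Z2 ∪ T.Vbd Z2 ∪ T.Vin Z3))) (T.Vbd S ∪ (L ∩ T.Vin (T₁ \ S)))
  have u2 := card_union_le ((L ∩ T.Vin (P \ Xa)) ∪ T.Vbd P)
    (T.Vin Z1 ∪ T.Vbd Z1 ∪ (T.Vin Z2 ∪ T.Vbd Z2 ∪ T.Vin Z3))
  have u3 := card_union_le (L ∩ T.Vin (P \ Xa)) (T.Vbd P)
  have u4 := card_union_le (T.Vin Z1 ∪ T.Vbd Z1) (T.Vin Z2 ∪ T.Vbd Z2 ∪ T.Vin Z3)
  have u5 := card_union_le (T.Vin Z1) (T.Vbd Z1)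
  have u6 := card_union_le (T.Vin Z2 ∪ T.Vbd Z2) (T.Vin Z3)
  have u7 := card_union_le (T.Vin Z2) (T.Vbd Z2)
  have u8 := card_union_le (T.Vbd S) (L ∩ T.Vin (T₁ \ S))
  have hmP := hTr.massP
  have hmS := hTr.massS
  rw [Tri.m] at hmP hmS
  omega

end Pool.Agent.Helper34.FF.Mid
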