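import Pool.Agent.Helper34.FF.G1
import Pool.Agent.Helper34.FF.Goals4
import Pool.Agent.Helper34.FF.Rot
import Pool.Agent.Helper1.FF2.StmtSectors
import Pool.Agent.Helper1.FF2.StmtThin
import Pool.Agent.Helper1.FF2.StmtMaxCl
import Pool.Agent.Helper1.FF2.StmtEnd
import Pool.Agent.Helper1.FF2.Main
import Pool.Agent.Helper1.FF2.Final
import Pool.Agent.Helper90.FF.StmtTree
import Pool.Agent.Helper75.FF.StmtAcyc
import Pool.Agent.Helper75.FF.StmtMass
import Pool.Agent.Helper75.FF.StmtLat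
import Pool.Agent.Helper77.FF.StmtLca
import Pool.Agent.Helper43.FF.StmtSec
import Pool.Agent.Helper17.FF.StmtSecAlpha
import Pool.Agent.Helper93.FF.StmtRun
import Pool.Agent.Helper68.FF.StmtAvoidIn
import Pool.Agent.Helper97.FF.StmtReach
import Pool.Agent.Helper97.FF.StmtIsoCut
import Pool.Agent.Helper54.FF.StmtG
import Pool.Agent.Helper54.FF.StmtFilling
import Pool.Agent.Helper67.FF.StmtBranch
import Pool.Agent.Helper67.FF.StmtMkBlobs
import Pool.Agent.Helper48.FF.StmtRest
import Pool.Agent.Helper9.FF.StmtFaceDeg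
import Pool.Agent.Helper5.FF.StmtSeparator
import Pool.Agent.Helper22.FF.StmtBalanced
import Pool.Agent.Helper22.FF.StmtRegime
import Pool.Agent.Helper29.FF.StmtSplit
import Pool.Agent.Helper51.FF.StmtFlat
import Pool.Agent.Helper11.FF.StmtTypes
import Pool.Agent.Helper11.FF.StmtNotBetween
import Pool.Agent.Helper99.FF.StmtPairGeo
import Pool.Agent.Helper99.FF.StmtBead
import Pool.Agent.Helper41.FF.StmtPairBar
import Pool.Agent.Helper64.FF.StmtThreeBlobs
import Pool.Agent.Helper21.FF.StmtAnn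
import Pool.Agent.Helper10.FF.StmtTriple
import Pool.Agent.Helper27.FF.StmtPos
import Pool.Agent.Helper34.FF.StmtMiddle
import Pool.Agent.Helper23.FF.StmtFill
import Pool.Agent.Helper28.PL.Final

/-!
# Assembly: two firefighters on planar graphs
-/

namespace Pool.Agent.Helper34.FF

open Pool.Agent.Helper1.FF2 hiding StmtG StmtMain

theorem pMass : StmtMass := Pool.Agent.Helper75.FF.pf_StmtMass
theorem pFlat : StmtFlat := Pool.Agent.Helper51.FF.pf_StmtFlat
theorem pSectors : StmtSectors :=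
  pf_StmtSectors Pool.Agent.Helper90.FF.pf_StmtTree
    (Pool.Agent.Helper43.FF.pf_StmtSec Pool.Agent.Helper77.FF.pf_StmtLca
      Pool.Agent.Helper75.FF.pf_StmtAcyc)
    (Pool.Agent.Helper17.FF.pf_StmtSecAlpha Pool.Agent.Helper77.FF.pf_StmtLca)
    (Pool.Agent.Helper93.FF.pf_StmtRun Pool.Agent.Helper77.FF.pf_StmtLca)
    (Pool.Agent.Helper97.FF.pf_StmtReach pAlg pTri pEnumFacts pIso pAvoid
      (Pool.Agent.Helper68.FF.pf_StmtAvoidIn pAlg pTri))
    Pool.Agent.Helper54.FF.pf_StmtG Helper67.FF.pf_StmtBranch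
    Pool.Agent.Helper48.FF.pf_StmtRest pAlg pNoCut pTri pEnumFacts
theorem pThin : StmtThin := pf_StmtThin pSectors Pool.Agent.Helper9.FF.pf_StmtFaceDeg pAlg pTri pMass
theorem pShrink : StmtShrink :=
  pf_StmtShrink pSectors Pool.Agent.Helper9.FF.pf_StmtFaceDeg pTri pMass pEnumFacts
theorem pCut : StmtCut := pf_StmtCut pSectors pAlg pTri pEnum
theorem pSeparator : StmtSeparator :=
  Pool.Agent.Helper5.FF.pf_StmtSeparator Pool.Agent.Helper90.FF.pf_StmtTree
    Pool.Agent.Helper75.FF.pf_StmtAcyc Pool.Agent.Helper77.FF.pf_StmtLca pMass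
theorem pBalanced : StmtBalanced := Pool.Agent.Helper22.FF.pf_StmtBalanced pMass
theorem pFilling : StmtFilling := Pool.Agent.Helper54.FF.pf_StmtFilling pCut pMass
theorem pIsoCut : StmtIsoCut := Pool.Agent.Helper97.FF.pf_StmtIsoCut pMass
theorem pRegime : StmtRegime :=
  Pool.Agent.Helper22.FF.pf_StmtRegime pSeparator pBalanced pFilling pIsoCut pMass
theorem pSplit : StmtSplit := Pool.Agent.Helper29.FF.pf_StmtSplit pShrink pMass
theorem pMkBlobs : StmtMkBlobs := Helper67.FF.pf_StmtMkBlobs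
theorem pMaxCl : StmtMaxCl := pf_StmtMaxCl
theorem pTypes : StmtTypes := Pool.Agent.Helper11.FF.pf_StmtTypes pSectors
theorem pThreeBlobs : StmtThreeBlobs :=
  Pool.Agent.Helper64.FF.pf_StmtThreeBlobs pMaxCl pTypes Pool.Agent.Helper99.FF.pf_StmtPairGeo
    Pool.Agent.Helper41.FF.pf_StmtPairBar pMass
theorem pNoThird : StmtNoThird := pf_StmtNoThird pSplit pMkBlobs pThreeBlobs pMass
theorem pAnn : StmtAnn := Pool.Agent.Helper21.FF.pf_StmtAnn pSplit pNoThird pFlat pThin pMass
theorem pLat : StmtLat := Pool.Agent.Helper75.FF.pf_StmtLat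
theorem pBead : StmtBead := Pool.Agent.Helper99.FF.pf_StmtBead
theorem pNotBetween : StmtNotBetween := Pool.Agent.Helper11.FF.pf_StmtNotBetween
theorem pTriple : StmtTriple := Pool.Agent.Helper10.FF.pf_StmtTriple pLat pMass
theorem pPos : StmtPos := Pool.Agent.Helper27.FF.pf_StmtPos
theorem pMiddle : StmtMiddle := Pool.Agent.Helper34.FF.Mid.pf_StmtMiddle pPos pBead pMass
theorem pFill : StmtFill := Pool.Agent.Helper23.FF.pf_StmtFill pPos pBead pMass
theorem pThinPair : StmtThinPair := pf_StmtThinPair pFill pNotBetween pMass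
theorem pEnd : StmtEnd := pf_StmtEnd pTriple pMiddle pThinPair
theorem pMain : Pool.Agent.Helper1.FF2.StmtMain := pf_StmtMain pRegime pAnn (stmtEnd'_of pEnd)

/-- The surviving rate of two firefighters on planar graphs is larger than `10⁻¹⁸`. -/
theorem planar_rho (V : Type) [Fintype V] (G : SimpleGraph V) (h : 2 ≤ Fintype.card V)
    (hG : Helper28.PL.Planar G) : (1 : ℝ) / 10 ^ 18 < rho 2 G :=
  final_explicit pMain Helper28.PL.stmtPlanar pFire pOneSaved pRadius V G h hG

end Pool.Agent.Helper34.FF
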