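import Pool.Agent.Helper34.FF.Defs

/-!
# First batch of statements: face sets, cuts, cycles, barriers
-/

namespace Pool.Agent.Helper34.FF

open Finset
open scoped symmDiff Classical

/-- A1. Boundaries: additive, complement, even, every edge has two faces. -/
def StmtAlg : Prop := ∀ (V F : Type) [Fintype V] [Fintype F] (T : Tri V F),
  (∀ S S', T.bdry (S ∆ S') = T.bdry S ∆ T.bdry S') ∧
  (∀ S, T.bdry Sᶜ = T.bdry S) ∧
  (∀ S, EvenSet (T.bdry S)) ∧
  (∀ e ∈ T.G.edgeSet, (univ.filter fun f => T.on e f).card = 2) ∧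
  (∀ S, ∀ e ∈ T.G.edgeSet, e ∈ T.bdry S ∨ e ∈ T.inn S ∨ e ∈ T.inn Sᶜ) ∧
  (∀ S, Disjoint (T.bdry S) (T.inn S)) ∧
  (∀ S v, v ∈ T.Vin S → ∀ e ∈ T.G.edgeSet, v ∈ e → e ∈ T.inn S)

/-- A2. Symmetric differences of even sets are even; parity of the degrees in a path. -/
def StmtPar : Prop := ∀ (V : Type) (G : SimpleGraph V),
  (∀ Z Z' : Finset (Sym2 V), EvenSet Z → EvenSet Z' → EvenSet (Z ∆ Z')) ∧
  (∀ k a x y, IsW G k a x y → Inj k a →
    (wE k a).card = k ∧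
    ∀ v, Odd ((wE k a).filter fun e => v ∈ e).card ↔ (x ≠ y ∧ (v = x ∨ v = y)))

/-- A3. A dual-connected set is not cut by a boundary that avoids its inner edges. -/
def StmtNoCut : Prop := ∀ (V F : Type) [Fintype V] [Fintype F] (T : Tri V F) (X Y : Finset F),
  T.DC X → (∀ e ∈ T.bdry Y, e ∉ T.inn X) → X ⊆ Y ∨ Disjoint X Y

/-- A4. Trichotomy of vertices and propagation along walks. -/
def StmtTri : Prop := ∀ (V F : Type) [Fintype V] [Fintype F] (T : Tri V F), T.Sphere →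
  (∀ Y v, v ∈ T.Vin Y ∨ v ∈ T.Vbd Y ∨ v ∈ T.Vin Yᶜ) ∧
  (∀ Y v, v ∈ T.Vin Y → v ∉ T.Vbd Y ∧ v ∉ T.Vin Yᶜ) ∧
  (∀ Y, T.Vbd Yᶜ = T.Vbd Y) ∧
  (∀ Y v, v ∈ T.Vbd Y → (∃ f ∈ Y, v ∈ T.tri f) ∧ ∃ f, f ∉ Y ∧ v ∈ T.tri f) ∧
  (∀ Y k a x y, IsW T.G k a x y → (∀ i ≤ k, a i ∉ T.Vbd Y) → x ∈ T.Vin Y → y ∈ T.Vin Y)

/-- A5. Bonds are the sets whose boundary is a minimal nonempty even set. -/
def StmtBond : Prop := ∀ (V F : Type) [Fintype V] [Fintype F] (T : Tri V F), T.Sphere →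
  (∀ S, (T.bdry S).Nonempty → (∀ Z ⊆ T.bdry S, EvenSet Z → Z = ∅ ∨ Z = T.bdry S) → T.Bond S) ∧
  (∀ S, T.Bond S → (T.bdry S).Nonempty ∧
    ∀ Z ⊆ T.bdry S, EvenSet Z → Z = ∅ ∨ Z = T.bdry S)

/-- A6. Submodularity of the boundary length with its exact error term, also restricted to the
edges with a property `p`. -/
def StmtSub : Prop := ∀ (V F : Type) [Fintype V] [Fintype F] (T : Tri V F) (A B : Finset F)
  (p : Sym2 V → Prop),
  ((T.bdry (A ∩ B)).filter p).card + ((T.bdry (A ∪ B)).filter p).card +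
      2 * ((T.btw (A \ B) (B \ A)).filter p).card =
    ((T.bdry A).filter p).card + ((T.bdry B).filter p).card ∧
  ((T.bdry (A \ B)).filter p).card + ((T.bdry (B \ A)).filter p).card +
      2 * ((T.btw (A ∩ B) (A ∪ B)ᶜ).filter p).card =
    ((T.bdry A).filter p).card + ((T.bdry B).filter p).card

/-- A7. A minimum cut between two dual-connected sets is a bond. -/
def StmtMinCut : Prop := ∀ (V F : Type) [Fintype V] [Fintype F] (T : Tri V F), T.Sphere →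
  ∀ K D Y, T.DC K → T.DC D → K ⊆ Y → Disjoint Y D →
    (∀ Y', K ⊆ Y' → Disjoint Y' D → T.len Y ≤ T.len Y') → T.Bond Y

/-- A8. The boundary of a bond is a cycle. -/
def StmtEnum : Prop := ∀ (V F : Type) [Fintype V] [Fintype F] (T : Tri V F), T.Sphere →
  ∀ S, T.Bond S → ∃ c, T.Enum S (T.len S) c

/-- A9. Elementary facts about an enumeration. -/
def StmtEnumFacts : Prop := ∀ (V F : Type) [Fintype V] [Fintype F] (T : Tri V F), T.Sphere →
  ∀ S l c, T.Enum S l c →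
    T.Bond S ∧ T.len S = l ∧ (T.Vbd S).card = l ∧ (∀ v, v ∈ T.Vbd S ↔ ∃ i, v = c i) ∧
    (∀ v ∈ T.Vbd S, ((T.bdry S).filter fun e => v ∈ e).card = 2) ∧
    (∀ i j : ℤ, i ≤ j → j ≤ i + l → (arcE c i j).card = (j - i).toNat ∧ arcE c i j ⊆ T.bdry S ∧
      arcE c i j ∆ arcE c j (i + l) = T.bdry S ∧ Disjoint (arcE c i j) (arcE c j (i + l))) ∧
    (∀ i j : ℤ, i ≤ j → j < i + l →
      IsW T.G (j - i).toNat (fun t : ℕ => c (i + t)) (c i) (c j) ∧
      Inj (j - i).toNat (fun t : ℕ => c (i + t)) ∧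
      wE (j - i).toNat (fun t : ℕ => c (i + t)) = arcE c i j) ∧
    T.Enum Sᶜ l c ∧ T.Enum S l (fun i => c (-i)) ∧ ∀ s : ℤ, T.Enum S l (fun i => c (i + s))

/-- A10. Two internally disjoint paths with the same ends form a minimal even set. -/
def StmtTwoPaths : Prop := ∀ (V : Type) (G : SimpleGraph V) (k k' : ℕ) (a a' : ℕ → V) (x y : V),
  IsW G k a x y → IsW G k' a' x y → x ≠ y → Inj k a → Inj k' a' → 3 ≤ k + k' →
  (∀ i ≤ k, ∀ j ≤ k', a i = a' j → (i = 0 ∧ j = 0) ∨ (i = k ∧ j = k')) →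
  Disjoint (wE k a) (wE k' a') ∧ (wE k a ∪ wE k' a').card = k + k' ∧
    EvenSet (wE k a ∪ wE k' a') ∧
    ∀ Z ⊆ wE k a ∪ wE k' a', EvenSet Z → Z = ∅ ∨ Z = wE k a ∪ wE k' a'

/-- A11. A chord inside a bond splits it into two bonds. -/
def StmtChord : Prop := ∀ (V F : Type) [Fintype V] [Fintype F] (T : Tri V F), T.Sphere →
  ∀ X l c, T.Enum X l c → ∀ i j, i < j → j < i + l → ∀ k a, IsW T.G k a (c i) (c j) →
    Inj k a → (∀ t, 0 < t → t < k → ∀ q, a t ≠ c q) →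
    (∀ t < k, s(a t, a (t + 1)) ∈ T.inn X) →
    ∃ Y₁ Y₂, Y₁ ∪ Y₂ = X ∧ Disjoint Y₁ Y₂ ∧ T.Bond Y₁ ∧ T.Bond Y₂ ∧
      T.bdry Y₁ = wE k a ∪ arcE c i j ∧ T.bdry Y₂ = wE k a ∪ arcE c j (i + l) ∧
      (T.len Y₁ : ℤ) = k + (j - i) ∧ (T.len Y₂ : ℤ) = k + (l - (j - i))

/-- A12. Three dual-connected regions: the common boundary of two of them is an arc. -/
def StmtThree : Prop := ∀ (V F : Type) [Fintype V] [Fintype F] (T : Tri V F), T.Sphere →
  ∀ P U W, T.Bond P → T.Bond U → T.Bond W → Disjoint P U → Disjoint P W → Disjoint U W →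
    P ∪ U ∪ W = univ → (T.btw P U).Nonempty → (T.btw P W).Nonempty →
    ∀ l c, T.Enum P l c → ∃ i j, i < j ∧ j < i + l ∧ T.btw P U = arcE c i j ∧
      T.btw P W = arcE c j (i + l)

/-- M1. One-corner barriers are good. -/
def StmtOneCorner : Prop := ∀ (V : Type) (G : SimpleGraph V) (w z : V) (C : Finset V) (ζ : ℕ)
  (R L : ℕ → V), 1 ≤ ζ → R 0 = z → L 0 = z → w ∉ C →
  (∀ c ∈ C, ∃ j, (c = R j ∨ c = L j) ∧ ∀ t, Hits G C w t c → ζ + j ≤ t) → Good G w C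

/-- M2. Two-corner barriers are good. -/
def StmtTwoCorner : Prop := ∀ (V : Type) (G : SimpleGraph V) (w P Q : V) (C : Finset V)
  (h dP dQ : ℕ) (R L : ℕ → V), 1 ≤ h → 1 ≤ dP → 1 ≤ dQ → h ≤ dP + dQ →
  R 0 = P → L 0 = P → R h = Q → L h = Q → w ∉ C →
  (∀ c ∈ C, ∃ j ≤ h, (c = R j ∨ c = L j) ∧
    ∀ t, Hits G C w t c → min (dP + j) (dQ + (h - j)) ≤ t) → Good G w C

/-- M3. Walks can avoid the interiors of obstacles. -/
def StmtAvoid : Prop := ∀ (V F : Type) [Fintype V] [Fintype F] (T : Tri V F), T.Sphere →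
  ∀ Ds, T.Obst Ds → ∀ t u v, (∀ X ∈ Ds, u ∉ T.Vin X) → (∀ X ∈ Ds, v ∉ T.Vin X) →
    Within T.G t u v → Within (T.avoid Ds) t u v

/-- M4. Distances between vertices of a cycle are determined by the chords. -/
def StmtDecomp : Prop := ∀ (V : Type) (H : SimpleGraph V) (l : ℕ) (c : ℤ → V), 1 ≤ l →
  (∀ i, c (i + l) = c i) → (∀ i j, c i = c j → (l : ℤ) ∣ i - j) →
  (∀ i j k a, i < j → j < i + l → IsW H k a (c i) (c j) → Inj k a →
    (∀ t, 0 < t → t < k → ∀ q, a t ≠ c q) → min (j - i) (l - (j - i)) ≤ (k : ℤ)) →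
  ∀ i j k a, i ≤ j → j ≤ i + l → IsW H k a (c i) (c j) → min (j - i) (l - (j - i)) ≤ (k : ℤ)

/-- M5. An isometric boundary has no inner shortcuts (on both sides), and the bound on walks. -/
def StmtIso : Prop := ∀ (V F : Type) [Fintype V] [Fintype F] (T : Tri V F), T.Sphere →
  (∀ X l c, T.Iso X l c → T.IN X ∧ T.IN Xᶜ ∧ T.Iso Xᶜ l c ∧
    ∀ i j k a, i ≤ j → j ≤ i + l → IsW T.G k a (c i) (c j) →
      min (j - i) (l - (j - i)) ≤ (k : ℤ)) ∧
  (∀ X l c, T.Enum X l c → (∀ i j k a, i ≤ j → j ≤ i + l → IsW T.G k a (c i) (c j) →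
      min (j - i) (l - (j - i)) ≤ (k : ℤ)) → T.Iso X l c)

/-! ## The process -/

/-- The vertices protected up to time `t`. -/
noncomputable def prot {V : Type} (σ : ℕ → Finset V) (t : ℕ) : Finset V :=
  (Icc 1 t).biUnion σ

/-- The vertices burning at time `t`. -/
noncomputable def burn {V : Type} [Fintype V] (G : SimpleGraph V) (v : V) (σ : ℕ → Finset V) :
    ℕ → Finset V
  | 0 => {v}
  | t + 1 => burn G v σ t ∪
      univ.filter fun y => y ∉ prot σ (t + 1) ∧ ∃ x ∈ burn G v σ t, G.Adj x y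

/-- `σ` is a legal strategy of `k` firefighters: at time `t ≥ 1` at most `k` vertices are chosen,
none of them burning. -/
def Legal {V : Type} [Fintype V] (G : SimpleGraph V) (k : ℕ) (v : V) (σ : ℕ → Finset V) : Prop :=
  ∀ t, 1 ≤ t → (σ t).card ≤ k ∧ Disjoint (σ t) (burn G v σ (t - 1))

/-- The vertices that never burn. -/
noncomputable def saved {V : Type} [Fintype V] (G : SimpleGraph V) (v : V)
    (σ : ℕ → Finset V) : Finset V :=
  univ.filter fun y => ∀ t, y ∉ burn G v σ t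

/-- The largest number of vertices that `k` firefighters can save. -/
noncomputable def sn {V : Type} [Fintype V] (k : ℕ) (G : SimpleGraph V) (v : V) : ℕ :=
  sSup {m | ∃ σ, Legal G k v σ ∧ (saved G v σ).card = m}

/-- The surviving rate. -/
noncomputable def rho {V : Type} [Fintype V] (k : ℕ) (G : SimpleGraph V) : ℝ :=
  (∑ v, (sn k G v : ℝ)) / (Fintype.card V : ℝ) ^ 2

/-- P1. Fire lemma: a good barrier saves everything behind it. -/
def StmtFire : Prop := ∀ (V : Type) [Fintype V] (G₀ G : SimpleGraph V), G₀ ≤ G →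
  ∀ w C, Good G w C → ∀ Q : Finset V,
    (∀ v ∈ Q, ∀ k a, IsW G k a w v → ∃ i ≤ k, a i ∈ C) → Q.card ≤ sn 2 G₀ w

/-- P2. Two firefighters save at least one vertex if there are at least two. -/
def StmtOneSaved : Prop := ∀ (V : Type) [Fintype V] (G : SimpleGraph V) (v : V),
  2 ≤ Fintype.card V → 1 ≤ sn 2 G v

/-- P3. If there is a bad vertex then the diameter is small. -/
def StmtRadius : Prop := ∀ (V : Type) [Fintype V] (G : SimpleGraph V), G.Connected →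
  ∀ e K : ℕ, 1 ≤ K → (∃ w, Bad G e w) →
    ∀ o v, G.dist o v ≤ 2 * e + 2 * K + 2 * (Fintype.card V / K) + 2

end Pool.Agent.Helper34.FF
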