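import Pool.Agent.Helper34.FF.Goals2

/-!
# Second batch, supplement
-/

namespace Pool.Agent.Helper34.FF

open Finset
open scoped symmDiff Classical

/-- B15. Every set of faces that separates `A` from `B` contains in its boundary the boundary of a
bond that separates them. -/
def StmtFlat : Prop := ∀ (V F : Type) [Fintype V] [Fintype F] (T : Tri V F), T.Sphere →
  ∀ A B Y, T.DC A → T.DC B → A ⊆ Y → Disjoint Y B →
    ∃ Y', T.Bond Y' ∧ A ⊆ Y' ∧ Disjoint Y' B ∧ T.bdry Y' ⊆ T.bdry Y ∧ T.len Y' ≤ T.len Y ∧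
      (T.len Y' = T.len Y → Y' = Y)

end Pool.Agent.Helper34.FF
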